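import Pool.Agent.W398.SG.StmC

/-!
# Compactness: from the finite levels to the infinite level
-/

set_option autoImplicit false

namespace Pool.Agent.W885.SG

open Pool.Agent.W37.SG Pool.Agent.W398.SG.C CategoryTheory

theorem konig (X : ℕ → Type) [∀ k, Finite (X k)] [∀ k, Nonempty (X k)]
    (r : ∀ k, X (k + 1) → X k) : ∃ x : ∀ k, X k, ∀ k, r k (x (k + 1)) = x k := by
  let F : ℕᵒᵖ ⥤ Type := Functor.ofOpSequence (X := X) (fun k => ↾(r k))
  have : ∀ j, Finite (F.obj j) := fun j => inferInstanceAs (Finite (X j.unop))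
  have : ∀ j, Nonempty (F.obj j) := fun j => inferInstanceAs (Nonempty (X j.unop))
  obtain ⟨u, hu⟩ := nonempty_sections_of_finite_inverse_system F
  refine ⟨fun k => u (Opposite.op k), fun k => ?_⟩
  have h := hu (homOfLE (Nat.le_add_right k 1)).op
  have e : F.map (homOfLE (Nat.le_add_right k 1)).op = ↾(r k) :=
    Functor.ofOpSequence_map_homOfLE_succ (X := X) (fun k => ↾(r k)) k
  rw [e] at h
  exact h

section trunc

variable {p k : ℕ} {g h h' : Equiv.Perm (ℕ → ZMod p)}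

theorem trunc_unique (h1 : IsTrunc p k g h) (h2 : IsTrunc p k g h') : h = h' := by
  ext x i
  rw [h1, h2]

theorem trunc_self (hg : IsLvl p k g) : IsTrunc p k g g := by
  intro x i
  split_ifs with h
  · rfl
  · exact hg x i (not_lt.1 h)

theorem trunc_lvl (h1 : IsTrunc p k g h) : IsLvl p k h := by
  intro x i hi
  rw [h1, if_neg (by omega)]

theorem trunc_trunc {j : ℕ} (hjk : j ≤ k) (h1 : IsTrunc p k g h) (h2 : IsTrunc p j h h') :
    IsTrunc p j g h' := by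
  intro x i
  rw [h2]
  split_ifs with hi
  · rw [h1, if_pos (by omega)]
  · rfl

theorem tau_trunc [NeZero p] {v : ℕ} (hv : v < k) (h1 : IsTrunc p k g h) :
    tau p v h = tau p v g := by
  unfold tau
  refine Finset.sum_congr rfl fun y _ => ?_
  rw [h1, if_pos hv]

end trunc

section lift

variable {p : ℕ} {Tr : Subgroup (Equiv.Perm (ℕ → ZMod p))}

theorem t_comp (t : ℕ → (Tr →* Tr))
    (ht : ∀ (k : ℕ) (g : Tr), IsTrunc p k g (t k g)) {j k : ℕ} (hjk : j ≤ k) (g : Tr) :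
    t j (t k g) = t j g :=
  Subtype.ext (trunc_unique (trunc_trunc hjk (ht k g) (ht j (t k g))) (ht j g))

theorem t_self (t : ℕ → (Tr →* Tr))
    (ht : ∀ (k : ℕ) (g : Tr), IsTrunc p k g (t k g)) {k : ℕ} (g : Tr)
    (hg : IsLvl p k (g : Equiv.Perm (ℕ → ZMod p))) : t k g = g :=
  Subtype.ext (trunc_unique (ht k g) (trunc_self hg))

theorem lift_exists (hTr : ∀ g, g ∈ Tr ↔ IsTri p g) (t : ℕ → (Tr →* Tr))
    (ht : ∀ (k : ℕ) (g : Tr), IsTrunc p k g (t k g)) (hL : S_LIM) (x : ℕ → Subgroup Tr)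
    (hx : ∀ k, ∀ g ∈ x k, IsLvl p k (g : Equiv.Perm (ℕ → ZMod p)))
    (hxx : ∀ k, (x (k + 1)).map (t k) = x k) (k : ℕ) (h : Tr) (hh : h ∈ x k) :
    ∃ g : Tr, (∀ j, t j g ∈ x j) ∧ t k g = h := by
  have t_mem : ∀ (n j : ℕ) (y : Tr), y ∈ x (j + n) → t j y ∈ x j := by
    intro n
    induction n with
    | zero =>
      intro j y hy
      rw [t_self t ht y (hx j y hy)]
      exact hy
    | succ n ih =>
      intro j y hy
      rw [← t_comp t ht (Nat.le_add_right j n) y]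
      apply ih
      rw [← hxx (j + n)]
      exact Subgroup.mem_map_of_mem _ hy
  have next : ∀ (m : ℕ) (y : Tr), y ∈ x m → ∃ z, z ∈ x (m + 1) ∧ t m z = y := by
    intro m y hy
    rw [← hxx m, Subgroup.mem_map] at hy
    exact hy
  choose nx hnx1 hnx2 using next
  let a : ∀ n : ℕ, {y : Tr // y ∈ x (k + n)} := fun n =>
    Nat.rec (motive := fun n => {y : Tr // y ∈ x (k + n)}) ⟨h, hh⟩
      (fun n y => ⟨nx (k + n) y.1 y.2, hnx1 (k + n) y.1 y.2⟩) n
  have a0 : (a 0).1 = h := rfl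
  have as : ∀ n, t (k + n) (a (n + 1)).1 = (a n).1 := fun n => hnx2 (k + n) (a n).1 (a n).2
  have hkn : ∀ n, t k (a n).1 = h := by
    intro n
    induction n with
    | zero => rw [a0]; exact t_self t ht h (hx k h hh)
    | succ n ih =>
      rw [← t_comp t ht (Nat.le_add_right k n) (a (n + 1)).1, as, ih]
  let b : ℕ → Tr := fun j => t j (a j).1
  have hb : ∀ j, b j ∈ x j := by
    intro j
    apply t_mem k j
    rw [Nat.add_comm]
    exact (a j).2
  have hbb : ∀ j, t j (b (j + 1)) = b j := by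
    intro j
    show t j (t (j + 1) (a (j + 1)).1) = t j (a j).1
    rw [t_comp t ht (Nat.le_succ j), ← t_comp t ht (Nat.le_add_left j k) (a (j + 1)).1, as]
  obtain ⟨g, hg, hgt⟩ := hL p (fun j => (b j : Equiv.Perm (ℕ → ZMod p)))
    (fun j => ⟨(hTr _).1 (b j).2, hx j _ (hb j)⟩)
    (fun j => by
      have := ht j (b (j + 1))
      rw [hbb] at this
      exact this)
  have hgb : ∀ j, t j ⟨g, (hTr g).2 hg⟩ = b j := fun j =>
    Subtype.ext (trunc_unique (ht j ⟨g, (hTr g).2 hg⟩) (hgt j))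
  refine ⟨⟨g, (hTr g).2 hg⟩, fun j => ?_, ?_⟩
  · rw [hgb]
    exact hb j
  · rw [hgb]
    exact hkn k

end lift

theorem main : S_TRI → S_PG → S_LIM → S_QC.{0,0} → S_SUBC.{0} → S_INF → S_FIN := by
  intro hT hPG hL hQC hSUB hINF p _ hp s
  by_contra hK
  obtain ⟨Tr, hTr, ht0⟩ := hT p
  choose t ht using ht0
  let XX : ℕ → Set (Subgroup Tr) := fun k =>
    {Q | (∀ g ∈ Q, IsLvl p k (g : Equiv.Perm (ℕ → ZMod p))) ∧
      (∀ v < k, ∃ g ∈ Q, tau p v (g : Equiv.Perm (ℕ → ZMod p)) ≠ 0) ∧ CoclassLE p s Q}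
  have hpg : ∀ (k : ℕ) (Q : Subgroup Tr),
      (∀ g ∈ Q, IsLvl p k (g : Equiv.Perm (ℕ → ZMod p))) → IsPGroup p Q := by
    intro k Q hQ g
    refine ⟨k, ?_⟩
    apply Subtype.ext
    apply Subtype.ext
    have := (hPG p k).2 (g : Tr) ((hTr _).1 (g : Tr).2) (hQ _ g.2)
    simpa using this
  have hmap : ∀ m k, k ≤ m → ∀ Q ∈ XX m, Q.map (t k) ∈ XX k := by
    rintro m k hkm Q ⟨h1, h2, h3⟩
    refine ⟨?_, ?_, ?_⟩
    · intro g hg
      rw [Subgroup.mem_map] at hg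
      obtain ⟨g', _, rfl⟩ := hg
      exact trunc_lvl (ht k g')
    · intro v hv
      obtain ⟨g, hg, hg'⟩ := h2 v (by omega)
      refine ⟨t k g, Subgroup.mem_map_of_mem _ hg, ?_⟩
      rw [tau_trunc hv (ht k g)]
      exact hg'
    · exact hQC p s Q (Q.map (t k)) ((t k).subgroupMap Q) (hpg m Q h1)
        ((t k).subgroupMap_surjective Q) h3
  have hne : ∀ k, (XX k).Nonempty := by
    intro k
    have h1 : ∃ (m : ℕ) (Q : Subgroup (Equiv.Perm (ℕ → ZMod p))),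
        (∀ g ∈ Q, IsTri p g ∧ IsLvl p m g) ∧ (∀ v < m, ∃ g ∈ Q, tau p v g ≠ 0) ∧
        SubCoclassLE p s Q ∧ k < m := by
      by_contra hc
      apply hK
      refine ⟨k, fun m Q h1 h2 h3 => ?_⟩
      by_contra h4
      exact hc ⟨m, Q, h1, h2, h3, not_le.1 h4⟩
    obtain ⟨m, Q, h2, h3, h4, hkm⟩ := h1
    have hle : Q ≤ Tr := fun g hg => (hTr g).2 (h2 g hg).1
    refine ⟨(Q.subgroupOf Tr).map (t k), hmap m k hkm.le _ ⟨?_, ?_, ?_⟩⟩
    · intro g hg
      exact (h2 _ (Subgroup.mem_subgroupOf.1 hg)).2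
    · intro v hv
      obtain ⟨g, hg, hg'⟩ := h3 v hv
      exact ⟨⟨g, hle hg⟩, Subgroup.mem_subgroupOf.2 hg, hg'⟩
    · refine hQC p s Q (Q.subgroupOf Tr) (Subgroup.subgroupOfEquivOfLe hle).symm.toMonoidHom ?_
        (Subgroup.subgroupOfEquivOfLe hle).symm.surjective ((hSUB p s _ Q).1 h4)
      intro g
      refine ⟨m, ?_⟩
      apply Subtype.ext
      have := (hPG p m).2 g (h2 _ g.2).1 (h2 _ g.2).2
      simpa using this
  have hfin : ∀ k, (XX k).Finite := by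
    intro k
    have h1 : {g : Tr | IsLvl p k (g : Equiv.Perm (ℕ → ZMod p))}.Finite := by
      have h2 := (hPG p k).1.preimage (f := fun g : Tr => (g : Equiv.Perm (ℕ → ZMod p)))
        Subtype.val_injective.injOn
      refine h2.subset ?_
      intro g hg
      exact ⟨(hTr _).1 g.2, hg⟩
    have h3 := h1.finite_subsets.preimage (f := fun Q : Subgroup Tr => (Q : Set Tr))
      SetLike.coe_injective.injOn
    refine h3.subset ?_
    rintro Q ⟨hQ, _⟩
    exact fun g hg => hQ g hg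
  have i1 : ∀ k, Finite (XX k) := fun k => (hfin k).to_subtype
  have i2 : ∀ k, Nonempty (XX k) := fun k => (hne k).to_subtype
  obtain ⟨x, hx⟩ := konig (fun k => (XX k : Type))
    (fun k Q => ⟨Q.1.map (t k), hmap (k + 1) k (Nat.le_succ k) Q.1 Q.2⟩)
  have hxx : ∀ k, ((x (k + 1)).1).map (t k) = (x k).1 := fun k => congrArg Subtype.val (hx k)
  have hlift := lift_exists hTr t ht hL (fun k => (x k).1) (fun k => (x k).2.1) hxx
  let Q : Subgroup Tr := ⨅ k, ((x k).1).comap (t k)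
  have hQ : ∀ g : Tr, g ∈ Q ↔ ∀ k, t k g ∈ (x k).1 := by
    intro g
    rw [Subgroup.mem_iInf]
    rfl
  refine hINF p hp s ⟨Q.map Tr.subtype, fun k => (x k).1.map Tr.subtype, ?_, ?_, ?_, ?_⟩
  · rintro _ ⟨g, _, rfl⟩
    exact (hTr _).1 g.2
  · intro v
    obtain ⟨h, hh, hh'⟩ := (x (v + 1)).2.2.1 v (Nat.lt_succ_self v)
    obtain ⟨g, hg, hg'⟩ := hlift (v + 1) h hh
    refine ⟨(g : Equiv.Perm (ℕ → ZMod p)), ⟨g, (hQ g).2 hg, rfl⟩, ?_⟩
    rw [← tau_trunc (Nat.lt_succ_self v) (ht (v + 1) g), hg']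
    exact hh'
  · intro k h
    constructor
    · rintro ⟨h', hh', rfl⟩
      obtain ⟨g, hg, hg'⟩ := hlift k h' hh'
      refine ⟨(g : Equiv.Perm (ℕ → ZMod p)), ⟨g, (hQ g).2 hg, rfl⟩, ?_⟩
      rw [← hg']
      exact ht k g
    · rintro ⟨_, ⟨g, hg, rfl⟩, hgh⟩
      refine ⟨t k g, (hQ g).1 hg k, ?_⟩
      exact trunc_unique (ht k g) hgh
  · intro k
    rw [hSUB]
    exact hQC p s (x k).1 ((x k).1.map Tr.subtype) (Tr.subtype.subgroupMap (x k).1)
      (hpg k _ (x k).2.1) (Tr.subtype.subgroupMap_surjective (x k).1) (x k).2.2.2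

end Pool.Agent.W885.SG
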